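import Mathlib

set_option autoImplicit false

open Polynomial Finset

namespace Pool.Agent.Results.MP_cea7e0_an.OpenSet

/-- The finite sequence `f_0, …, f_n`, extended by `0` to all integers. -/
noncomputable def ext {n : ℕ} (f : Fin (n + 1) → ℝ) (k : ℤ) : ℝ :=
  if h : 0 ≤ k ∧ k.toNat < n + 1 then f ⟨k.toNat, h.2⟩ else 0

/-- `f` is a Polya frequency sequence of order `d`: every minor of order at most `d` of the infinite
Toeplitz matrix `(f_{i-j})` is non-negative. -/
def IsPF (d : ℕ) (f : ℤ → ℝ) : Prop :=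
  ∀ m ≤ d, ∀ a b : Fin m → ℤ, StrictMono a → StrictMono b →
    0 ≤ (Matrix.of fun s t => f (a s - b t)).det

/-- The polynomial `P_n^r(z) = ∑_{k_1+…+k_r=n} (n; k_1,…,k_r) f_{k_1} ⋯ f_{k_r} det[(z+j-i)_{k_i}]`. -/
noncomputable def P (n r : ℕ) (f : ℤ → ℝ) : ℝ[X] :=
  ∑ k ∈ Finset.Nat.antidiagonalTuple r n,
    C ((Nat.multinomial Finset.univ k : ℝ) * ∏ i, f ((k i : ℕ) : ℤ)) *
      (Matrix.of fun i j : Fin r =>
        (ascPochhammer ℝ (k i)).comp (X + C (((j : ℕ) : ℝ) - ((i : ℕ) : ℝ)))).det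

/-! ### evaluation of `P 17 2` -/

theorem aeval_comp_asc (k : ℕ) (c : ℝ) (z : ℂ) :
    aeval z ((ascPochhammer ℝ k).comp (X + C c)) = (ascPochhammer ℂ k).eval (z + c) := by
  rw [aeval_comp]
  simp only [map_add, aeval_X, aeval_C]
  rw [aeval_def, ← ascPochhammer_eval₂ (algebraMap ℝ ℂ) k]
  rfl

/-- the evaluated polynomial -/
noncomputable def ev (f : ℤ → ℝ) (z : ℂ) : ℂ :=
  ∑ k ∈ range 18, (((Nat.choose 17 k : ℝ) * (f k * f ((17 - k : ℕ) : ℤ)) : ℝ) : ℂ) *
    ((ascPochhammer ℂ k).eval z * (ascPochhammer ℂ (17 - k)).eval z -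
      (ascPochhammer ℂ k).eval (z + 1) * (ascPochhammer ℂ (17 - k)).eval (z - 1))

theorem aeval_P (f : ℤ → ℝ) (z : ℂ) : aeval z (P 17 2 f) = ev f z := by
  unfold P ev
  rw [Finset.Nat.antidiagonalTuple_two, Finset.sum_map, map_sum,
    Finset.Nat.sum_antidiagonal_eq_sum_range_succ_mk]
  refine Finset.sum_congr rfl ?_
  intro k hk
  have hk' : k ≤ 17 := by simpa [Nat.lt_succ_iff] using hk
  have hmul : Nat.multinomial (Finset.univ : Finset (Fin 2)) ![k, 17 - k] = Nat.choose 17 k := by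
    have : (Finset.univ : Finset (Fin 2)) = {0, 1} := by decide
    rw [this, Nat.binomial_eq_choose (by decide)]
    simp [hk']
  simp only [Equiv.coe_toEmbedding, piFinTwoEquiv_symm_apply]
  have hcons : (Fin.cons k (Fin.cons (17 - k) finZeroElim) : Fin 2 → ℕ) = ![k, 17 - k] := by
    ext i
    fin_cases i <;> rfl
  rw [hcons, hmul, Matrix.det_fin_two]
  simp only [Matrix.of_apply, Fin.prod_univ_two, Matrix.cons_val_zero, Matrix.cons_val_one]
  rw [map_mul, aeval_C, map_sub (aeval z : ℝ[X] →ₐ[ℝ] ℂ),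
    map_mul (aeval z : ℝ[X] →ₐ[ℝ] ℂ),
    map_mul (aeval z : ℝ[X] →ₐ[ℝ] ℂ),
    aeval_comp_asc, aeval_comp_asc, aeval_comp_asc, aeval_comp_asc]
  have e1 : z + (((((0 : Fin 2) : ℕ) : ℝ) - (((0 : Fin 2) : ℕ) : ℝ) : ℝ) : ℂ) = z := by simp
  have e2 : z + (((((1 : Fin 2) : ℕ) : ℝ) - (((1 : Fin 2) : ℕ) : ℝ) : ℝ) : ℂ) = z := by simp
  have e3 : z + (((((1 : Fin 2) : ℕ) : ℝ) - (((0 : Fin 2) : ℕ) : ℝ) : ℝ) : ℂ) = z + 1 := by simp
  have e4 : z + (((((0 : Fin 2) : ℕ) : ℝ) - (((1 : Fin 2) : ℕ) : ℝ) : ℝ) : ℂ) = z - 1 := by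
    simp [sub_eq_add_neg]
  rw [e1, e2, e3, e4]
  simp

theorem continuous_ext (k : ℤ) : Continuous fun f : Fin 18 → ℝ => ext f k := by
  unfold ext
  by_cases h : 0 ≤ k ∧ k.toNat < 17 + 1
  · simp only [dif_pos h]
    exact continuous_apply _
  · simp only [dif_neg h]
    exact continuous_const

theorem continuous_ev (z : ℂ) : Continuous fun f : Fin 18 → ℝ => ev (ext f) z := by
  unfold ev
  refine continuous_finsetSum _ fun k _ => ?_
  refine Continuous.mul ?_ continuous_const
  refine Complex.continuous_ofReal.comp ?_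
  exact continuous_const.mul ((continuous_ext _).mul (continuous_ext _))

/-! ### the sequence -/

/-- The integer sequence `1, 61, 62, …, 68, 68, …, 68, 1` on `0..17`, times `1000`, plus
`k (17 - k)`. -/
def F (k : ℤ) : ℤ :=
  if k < 0 ∨ 17 < k then 0 else
    1000 * (if k = 0 ∨ k = 17 then 1 else 60 + min k 8) + k * (17 - k)

theorem F_pos : ∀ k : Fin 18, 0 < F (k.val : ℤ) := by decide +kernel

theorem key : ∀ u v x : Fin 18, u < x → x < v →
    F (u.val : ℤ) * F (v.val : ℤ) < F (x.val : ℤ) * F ((u.val : ℤ) + v.val - x.val) := by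
  decide +kernel

/-- rising factorial on Gaussian integers -/
def poch (z : GaussianInt) : ℕ → GaussianInt
  | 0 => 1
  | k + 1 => poch z k * (z + k)

/-- the value of the polynomial at a Gaussian integer -/
def S (z : GaussianInt) : GaussianInt :=
  ∑ k ∈ range 18, (((Nat.choose 17 k : ℤ) * (F k * F ((17 - k : ℕ) : ℤ)) : ℤ) : GaussianInt) *
    (poch z k * poch z (17 - k) - poch (z + 1) k * poch (z - 1) (17 - k))

theorem S_lt : (S ⟨1, 5⟩).norm < (S ⟨0, 5⟩).norm := by
  decide +kernel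

theorem poch_cast (z : GaussianInt) (k : ℕ) :
    GaussianInt.toComplex (poch z k) = (ascPochhammer ℂ k).eval (GaussianInt.toComplex z) := by
  induction k with
  | zero => simp [poch]
  | succ k ih =>
    rw [ascPochhammer_succ_eval, ← ih]
    simp [poch]

/-- the sequence as a point of `ℝ^18` -/
noncomputable def f0 : Fin 18 → ℝ := fun k => (F (k.val : ℤ) : ℝ)

theorem ext_f0 (k : ℤ) : ext f0 k = (F k : ℝ) := by
  unfold ext
  split_ifs with h
  · have h1 : ((k.toNat : ℕ) : ℤ) = k := Int.toNat_of_nonneg h.1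
    simp only [f0]
    rw [h1]
  · have : F k = 0 := by
      unfold F
      rw [if_pos (by omega)]
    simp [this]

theorem ev_f0 (z : GaussianInt) :
    ev (ext f0) (GaussianInt.toComplex z) = GaussianInt.toComplex (S z) := by
  unfold ev S
  rw [map_sum]
  refine Finset.sum_congr rfl fun k _ => ?_
  rw [map_mul GaussianInt.toComplex, map_intCast, map_sub GaussianInt.toComplex,
    map_mul GaussianInt.toComplex, map_mul GaussianInt.toComplex, poch_cast, poch_cast,
    poch_cast, poch_cast, map_add GaussianInt.toComplex, map_sub GaussianInt.toComplex, map_one]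
  rw [ext_f0, ext_f0]
  push_cast
  rfl

theorem ev_f0_lt : ‖ev (ext f0) (GaussianInt.toComplex ⟨1, 5⟩)‖ ^ 2 <
    ‖ev (ext f0) (GaussianInt.toComplex ⟨0, 5⟩)‖ ^ 2 := by
  rw [ev_f0, ev_f0, ← Complex.normSq_eq_norm_sq, ← Complex.normSq_eq_norm_sq,
    ← GaussianInt.intCast_real_norm, ← GaussianInt.intCast_real_norm]
  exact_mod_cast S_lt

/-! ### roots in the right half-plane -/

theorem prod_norm_le (m : Multiset ℂ) (z w : ℂ) (h : ∀ a ∈ m, ‖z - a‖ ≤ ‖w - a‖) :
    ‖(m.map (z - ·)).prod‖ ≤ ‖(m.map (w - ·)).prod‖ := by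
  induction m using Multiset.induction_on with
  | empty => simp
  | cons a m ih =>
    simp only [Multiset.map_cons, Multiset.prod_cons, norm_mul]
    refine mul_le_mul (h a (Multiset.mem_cons_self a m))
      (ih fun b hb => h b (Multiset.mem_cons_of_mem hb)) (norm_nonneg _) (norm_nonneg _)

/-- A real polynomial with all roots in the closed left half-plane has modulus that does not
decrease when one moves to the right in the closed right half-plane. -/
theorem norm_aeval_le (Q : ℝ[X]) (hQ : ∀ a : ℂ, aeval a Q = 0 → a.re ≤ 0) (z w : ℂ)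
    (him : z.im = w.im) (hz : 0 ≤ z.re) (hw : z.re ≤ w.re) : ‖aeval z Q‖ ≤ ‖aeval w Q‖ := by
  have hs : (Q.map (algebraMap ℝ ℂ)).Splits := IsAlgClosed.splits _
  rw [hs.aeval_eq_prod_aroots, hs.aeval_eq_prod_aroots, norm_mul, norm_mul]
  refine mul_le_mul_of_nonneg_left (prod_norm_le _ _ _ ?_) (norm_nonneg _)
  intro a ha
  have ha' : a.re ≤ 0 := hQ a (by
    have := (mem_aroots'.1 ha).2
    exact this)
  rw [← sq_le_sq₀ (norm_nonneg _) (norm_nonneg _), ← Complex.normSq_eq_norm_sq,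
    ← Complex.normSq_eq_norm_sq, Complex.normSq_apply, Complex.normSq_apply]
  simp only [Complex.sub_re, Complex.sub_im, him]
  nlinarith

/-! ### order two -/

theorem isPF_two (f : Fin 18 → ℝ) (hpos : ∀ k, 0 < f k)
    (hlc : ∀ u v x : Fin 18, u < x → x < v →
      ext f u.val * ext f v.val < ext f x.val * ext f ((u.val : ℤ) + v.val - x.val)) :
    IsPF 2 (ext f) := by
  have hnn : ∀ k, 0 ≤ ext f k := by
    intro k
    unfold ext
    split_ifs
    · exact (hpos _).le
    · exact le_rfl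
  have hout : ∀ k : ℤ, (k < 0 ∨ 17 < k) → ext f k = 0 := by
    intro k hk
    unfold ext
    rw [dif_neg (by omega)]
  have hall : ∀ u v x : ℤ, u ≤ x → x ≤ v → ext f u * ext f v ≤ ext f x * ext f (u + v - x) := by
    intro u v x h1 h2
    by_cases hu : u < 0
    · rw [hout u (Or.inl hu), zero_mul]
      exact mul_nonneg (hnn _) (hnn _)
    by_cases hv : 17 < v
    · rw [hout v (Or.inr hv), mul_zero]
      exact mul_nonneg (hnn _) (hnn _)
    push Not at hu hv
    rcases eq_or_lt_of_le h1 with rfl | h1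
    · have : u + v - u = v := by ring
      rw [this]
    rcases eq_or_lt_of_le h2 with rfl | h2
    · have : u + x - x = u := by ring
      rw [this, mul_comm]
    obtain ⟨u', rfl⟩ := Int.eq_ofNat_of_zero_le hu
    obtain ⟨v', rfl⟩ := Int.eq_ofNat_of_zero_le (hu.trans (h1.trans h2).le)
    obtain ⟨x', rfl⟩ := Int.eq_ofNat_of_zero_le (hu.trans h1.le)
    have h1' : u' < x' := by exact_mod_cast h1
    have h2' : x' < v' := by exact_mod_cast h2
    have hv' : v' ≤ 17 := by exact_mod_cast hv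
    exact (hlc ⟨u', by omega⟩ ⟨v', by omega⟩ ⟨x', by omega⟩ h1' h2').le
  intro m hm a b ha hb
  interval_cases m
  · simp
  · rw [Matrix.det_fin_one]
    exact hnn _
  · rw [Matrix.det_fin_two]
    simp only [Matrix.of_apply]
    have ha' : a 0 < a 1 := ha (by decide)
    have hb' : b 0 < b 1 := hb (by decide)
    have := hall (a 0 - b 1) (a 1 - b 0) (a 0 - b 0) (by linarith) (by linarith)
    have e : a 0 - b 1 + (a 1 - b 0) - (a 0 - b 0) = a 1 - b 1 := by ring
    rw [e] at this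
    linarith

/-- There is a nonempty open set `U` of sequences `f_0, …, f_17` of positive real numbers, all of
them Polya frequency sequences of order two, such that for every one of them the polynomial
`P_17^2` is nonzero and has a zero with positive real part. -/
theorem result : ∃ U : Set (Fin 18 → ℝ), IsOpen U ∧ U.Nonempty ∧ ∀ f ∈ U,
    (∀ k, 0 < f k) ∧ IsPF 2 (ext f) ∧ P 17 2 (ext f) ≠ 0 ∧
      ∃ z : ℂ, aeval z (P 17 2 (ext f)) = 0 ∧ 0 < z.re := by
  let U : Set (Fin 18 → ℝ) :=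
    (⋂ k : Fin 18, {f | 0 < f k}) ∩
    (⋂ u : Fin 18, ⋂ v : Fin 18, ⋂ x : Fin 18, {f | u < x → x < v →
      ext f u.val * ext f v.val < ext f x.val * ext f ((u.val : ℤ) + v.val - x.val)}) ∩
    {f | ‖ev (ext f) (GaussianInt.toComplex ⟨1, 5⟩)‖ ^ 2 <
      ‖ev (ext f) (GaussianInt.toComplex ⟨0, 5⟩)‖ ^ 2}
  refine ⟨U, ?_, ⟨f0, ?_⟩, ?_⟩
  · refine IsOpen.inter (IsOpen.inter ?_ ?_) ?_
    · exact isOpen_iInter_of_finite fun k => isOpen_lt continuous_const (continuous_apply k)
    · refine isOpen_iInter_of_finite fun u => isOpen_iInter_of_finite fun v =>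
        isOpen_iInter_of_finite fun x => ?_
      by_cases h1 : u < x
      · by_cases h2 : x < v
        · simp only [h1, h2, forall_const]
          exact isOpen_lt ((continuous_ext _).mul (continuous_ext _))
            ((continuous_ext _).mul (continuous_ext _))
        · simp [h2]
      · simp [h1]
    · exact isOpen_lt ((continuous_ev _).norm.pow 2) ((continuous_ev _).norm.pow 2)
  · refine ⟨⟨?_, ?_⟩, ev_f0_lt⟩
    · simp only [Set.mem_iInter, Set.mem_setOf_eq, f0]
      intro k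
      exact_mod_cast F_pos k
    · simp only [Set.mem_iInter, Set.mem_setOf_eq, ext_f0]
      intro u v x h1 h2
      exact_mod_cast key u v x h1 h2
  · rintro f ⟨⟨hf1, hf2⟩, hf3⟩
    simp only [Set.mem_iInter, Set.mem_setOf_eq] at hf1 hf2 hf3
    refine ⟨hf1, isPF_two f hf1 hf2, ?_, ?_⟩
    · intro h0
      rw [← aeval_P, ← aeval_P, h0] at hf3
      simp at hf3
    · by_contra hno
      push Not at hno
      have h1 := norm_aeval_le (P 17 2 (ext f)) hno (GaussianInt.toComplex ⟨0, 5⟩)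
        (GaussianInt.toComplex ⟨1, 5⟩) (by simp) (by simp) (by simp)
      rw [← aeval_P, ← aeval_P] at hf3
      have h3 := (sq_le_sq₀ (norm_nonneg _) (norm_nonneg _)).2 h1
      linarith

end Pool.Agent.Results.MP_cea7e0_an.OpenSet
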